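import Pool.Agent.H9.KA.Stmts
import Pool.Agent.H32.Dense.Pair

/-!
# Lower resolution
-/

set_option autoImplicit false

namespace Pool.KA

open Finset Real
open Pool.Agent.H49.Ent Pool.Agent.H32.Dense Pool.STK

namespace TRC

theorem CH_le_round {Ω S : Type} [Fintype Ω] {m : ℕ} {p : Ω → ℝ} (hp : IsLaw p)
    (X Y : Ω → Fin m → ℤ) (W : Ω → S)
    (h : ∀ ω ω', 0 < p ω → 0 < p ω' → W ω = W ω' → Y ω = Y ω' →
      ∀ k, |((X ω k - X ω' k : ℤ) : ℝ)| ≤ 49) :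
    CH p X W ≤ CH p Y W + cc m := by
  have h1 := CH_le_add hp.nonneg X Y W
  have h2 := CH_le_vec hp.nonneg hp.sum_one X (fun ω => (Y ω, W ω)) (fun _ => 49)
    (fun ω ω' a b hh k => h ω ω' a b (Prod.ext_iff.mp hh).2 (Prod.ext_iff.mp hh).1 k)
  rw [Ex_const hp.sum_one] at h2
  have h3 : (m : ℝ) * Real.log (2 * 49 + 1) ≤ cc m := by
    unfold cc
    refine mul_le_mul_of_nonneg_left (Real.log_le_log (by norm_num) (by norm_num)) (by positivity)
  linarith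

/-- Floors of two pairs of reals which are close to each other. -/
theorem floor_close {A B A' B' : ℝ} (h : ⌊A⌋ = ⌊B⌋) (h1 : |A' - A| ≤ 1) (h2 : |B' - B| ≤ 1) :
    |((⌊A'⌋ - ⌊B'⌋ : ℤ) : ℝ)| ≤ 49 := by
  have a1 := Int.floor_le A
  have a2 := Int.lt_floor_add_one A
  have b1 := Int.floor_le B
  have b2 := Int.lt_floor_add_one B
  have a1' := Int.floor_le A'
  have a2' := Int.lt_floor_add_one A'
  have b1' := Int.floor_le B'
  have b2' := Int.lt_floor_add_one B'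
  rw [abs_le] at h1 h2
  rw [h] at a1 a2
  rw [abs_le]
  push_cast
  constructor <;> linarith [h1.1, h1.2, h2.1, h2.2]

/-- A number below `2 ^ n` has at most `n` bits. -/
theorem CH_lt {Ω S : Type} [Fintype Ω] {p : Ω → ℝ} (hp : IsLaw p) (T : Ω → ℕ) (W : Ω → S) (n : ℕ)
    (h : ∀ ω, T ω < 2 ^ n) : CH p T W ≤ n * Real.log 2 := by
  have h1 := CH_le_card hp.nonneg hp.sum_one T W (fun _ => Finset.range (2 ^ n))
    (fun ω _ => Finset.mem_range.2 (h ω))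
  rw [Ex_const hp.sum_one] at h1
  rw [Finset.card_range] at h1
  push_cast at h1
  rwa [Real.log_pow] at h1

/-- Given the quotient by `2 ^ n`, there are `n` bits left. -/
theorem CH_div {Ω S : Type} [Fintype Ω] {p : Ω → ℝ} (hp : IsLaw p) (T : Ω → ℕ) (W : Ω → S)
    (n : ℕ) : CH p T (fun ω => (T ω / 2 ^ n, W ω)) ≤ n * Real.log 2 := by
  have h1 := CH_le_card hp.nonneg hp.sum_one T (fun ω => (T ω / 2 ^ n, W ω))
    (fun w => Finset.Ico (w.1 * 2 ^ n) (w.1 * 2 ^ n + 2 ^ n))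
    (fun ω _ => by
      rw [Finset.mem_Ico]
      have h2 := Nat.div_add_mod (T ω) (2 ^ n)
      have h3 := Nat.mod_lt (T ω) (y := 2 ^ n) (by positivity)
      have h4 : 2 ^ n * (T ω / 2 ^ n) = T ω / 2 ^ n * 2 ^ n := Nat.mul_comm _ _
      constructor
      · change T ω / 2 ^ n * 2 ^ n ≤ T ω
        omega
      · change T ω < T ω / 2 ^ n * 2 ^ n + 2 ^ n
        omega)
  have h2 : ∀ a : ℕ, (Finset.Ico (a * 2 ^ n) (a * 2 ^ n + 2 ^ n)).card = 2 ^ n := by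
    intro a
    rw [Nat.card_Ico, Nat.add_sub_cancel_left]
  simp only [h2] at h1
  rw [Ex_const hp.sum_one] at h1
  push_cast at h1
  rwa [Real.log_pow] at h1

/-- Given the floor at scale `x`, the floor at scale `x + n` has `n` bits in each coordinate. -/
theorem CH_floor {Ω S : Type} [Fintype Ω] {m : ℕ} {p : Ω → ℝ} (hp : IsLaw p)
    (y : Ω → Fin m → ℝ) (W : Ω → S) (x n : ℕ) :
    CH p (fun ω => fl (x + n) (y ω)) (fun ω => (fl x (y ω), W ω)) ≤ m * (n * Real.log 2) := by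
  have key : ∀ r : ℝ, ⌊(2 : ℝ) ^ x * r⌋ = ⌊(2 : ℝ) ^ (x + n) * r⌋ / (2 ^ n : ℤ) := by
    intro r
    have e : (2 : ℝ) ^ x * r = (2 : ℝ) ^ (x + n) * r / ((2 ^ n : ℕ) : ℝ) := by
      push_cast
      rw [eq_div_iff (by positivity), pow_add]
      ring
    rw [e, Int.floor_div_natCast]
    push_cast
    rfl
  have h1 := CH_le_card hp.nonneg hp.sum_one (fun ω => fl (x + n) (y ω))
    (fun ω => (fl x (y ω), W ω))
    (fun w => Fintype.piFinset fun k => Finset.Ico (w.1 k * 2 ^ n) (w.1 k * 2 ^ n + 2 ^ n))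
    (fun ω _ => by
      rw [Fintype.mem_piFinset]
      intro k
      rw [Finset.mem_Ico]
      change ⌊(2 : ℝ) ^ x * y ω k⌋ * 2 ^ n ≤ ⌊(2 : ℝ) ^ (x + n) * y ω k⌋ ∧
        ⌊(2 : ℝ) ^ (x + n) * y ω k⌋ < ⌊(2 : ℝ) ^ x * y ω k⌋ * 2 ^ n + 2 ^ n
      rw [key]
      have h2 := Int.mul_ediv_add_emod ⌊(2 : ℝ) ^ (x + n) * y ω k⌋ (2 ^ n)
      have h3 := Int.emod_nonneg ⌊(2 : ℝ) ^ (x + n) * y ω k⌋ (b := 2 ^ n) (by positivity)
      have h4 := Int.emod_lt_of_pos ⌊(2 : ℝ) ^ (x + n) * y ω k⌋ (b := 2 ^ n) (by positivity)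
      have h5 := mul_comm (2 ^ n) (⌊(2 : ℝ) ^ (x + n) * y ω k⌋ / 2 ^ n : ℤ)
      constructor <;> linarith)
  have h2 : ∀ a : Fin m → ℤ,
      ((Fintype.piFinset fun k => Finset.Ico (a k * 2 ^ n) (a k * 2 ^ n + 2 ^ n)).card : ℝ) =
        2 ^ (m * n) := by
    intro a
    rw [Fintype.card_piFinset]
    have h3 : ∀ k, (Finset.Ico (a k * 2 ^ n) (a k * 2 ^ n + 2 ^ n)).card = 2 ^ n := by
      intro k
      rw [Int.card_Ico]
      have : a k * 2 ^ n + 2 ^ n - a k * 2 ^ n = ((2 ^ n : ℕ) : ℤ) := by push_cast; ring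
      rw [this, Int.toNat_natCast]
    simp only [h3, Finset.prod_const, Finset.card_univ, Fintype.card_fin]
    push_cast
    rw [← pow_mul, Nat.mul_comm]
  simp only [h2] at h1
  rw [Ex_const hp.sum_one, Real.log_pow] at h1
  push_cast at h1
  linarith

end TRC

open TRC

theorem trc_thm : TRCStmt := by
  intro m
  refine ⟨cc m, ?_, ?_⟩
  · unfold cc
    exact mul_nonneg (by positivity) (Real.log_nonneg (by norm_num))
  intro J F x hx e he
  have hp := F.isLaw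
  have hp0 := hp.nonneg
  have hx' : (((J - x : ℕ) : ℝ)) = (J : ℝ) - x := by
    rw [Nat.cast_sub hx]
  have hJx : J - x + x = J := Nat.sub_add_cancel hx
  -- the coarse time
  set T' : F.Ω → ℕ := fun ω => F.T ω / 2 ^ (J - x) with hT'
  have hdet : Det F.p F.T T' := fun ω ω' _ _ h => by
    change F.T ω = F.T ω' at h
    simp only [hT', h]
  have hT'lt : ∀ ω, T' ω < 2 ^ x := (F.trc x hx).tim
  have e0 : 0 ≤ e := by
    have h1 := CH_lt hp F.T (fun ω => (F.l ω, F.Z ω)) J F.tim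
    unfold Fam.Tm at he
    linarith
  unfold Fam.Tm at he
  -- splitting of the time
  have c1 : CH F.p F.T (fun ω => (F.l ω, F.Z ω)) = CH F.p T' (fun ω => (F.l ω, F.Z ω)) +
      CH F.p F.T (fun ω => (T' ω, (F.l ω, F.Z ω))) := by
    rw [← CH_chain hp0]
    refine CH_congr hp0 ?_ ?_ (fun _ _ _ _ h => h) (fun _ _ _ _ h => h)
    · intro ω ω' a b h
      have h1 : F.T ω = F.T ω' := (Prod.ext_iff.mp h).1
      exact Prod.ext h1 (hdet ω ω' a b h1)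
    · intro ω ω' _ _ h
      exact (Prod.ext_iff.mp (Prod.ext_iff.mp h).1).1
  have c2 : CH F.p F.T (fun ω => (T' ω, (F.l ω, F.Z ω))) ≤ ((J : ℝ) - x) * Real.log 2 := by
    rw [← hx']
    exact CH_div hp F.T (fun ω => (F.l ω, F.Z ω)) (J - x)
  have c3 : CH F.p T' (fun ω => (F.l ω, F.Z ω)) ≤ x * Real.log 2 := CH_lt hp T' _ x hT'lt
  have c4 : CH F.p F.T (fun ω => (T' ω, F.Z ω)) ≤ ((J : ℝ) - x) * Real.log 2 := by
    rw [← hx']
    exact CH_div hp F.T F.Z (J - x)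
  refine ⟨?_, ?_⟩
  · unfold Fam.Tm
    change (x : ℝ) * Real.log 2 - e ≤ CH F.p T' (fun ω => (F.l ω, F.Z ω))
    linarith
  intro j hj
  set Y : F.Ω → Fin m → ℤ := (F.trc x hx).X j with hY
  -- the position at the coarse time, given the coarse or the fine time
  have hYdet : Det F.p (fun ω => (F.l ω, (T' ω, F.Z ω))) Y := by
    intro ω ω' _ _ h
    have h1 : F.l ω = F.l ω' := (Prod.ext_iff.mp h).1
    have h2 : T' ω = T' ω' := (Prod.ext_iff.mp (Prod.ext_iff.mp h).2).1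
    have h3 : F.u ω = F.u ω' := (Prod.ext_iff.mp h1).1
    have h4 : F.d ω = F.d ω' := (Prod.ext_iff.mp h1).2
    change fl j (fun i => F.u ω i + (T' ω : ℝ) / 2 ^ x * F.d ω i) =
      fl j (fun i => F.u ω' i + (T' ω' : ℝ) / 2 ^ x * F.d ω' i)
    rw [h2, h3, h4]
  have d1 : CH F.p Y (fun ω => (F.T ω, (T' ω, F.Z ω))) = CH F.p Y F.W := by
    refine CH_congr hp0 (fun _ _ _ _ h => (Prod.ext_iff.mp h).1)
      (fun _ _ _ _ h => (Prod.ext_iff.mp h).1) ?_ ?_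
    · intro ω ω' _ _ h
      have h1 := Prod.ext_iff.mp h
      exact Prod.ext h1.1 (Prod.ext_iff.mp h1.2).2
    · intro ω ω' a b h
      have h1 : F.T ω = F.T ω' := (Prod.ext_iff.mp h).1
      have h2 : F.Z ω = F.Z ω' := (Prod.ext_iff.mp h).2
      exact Prod.ext h1 (Prod.ext (hdet ω ω' a b h1) h2)
  have d2 := CH_bayes hp0 Y F.T (fun ω => (T' ω, F.Z ω))
  have d3 : CH F.p F.T (fun ω => (F.l ω, (T' ω, F.Z ω))) ≤
      CH F.p F.T (fun ω => (Y ω, (T' ω, F.Z ω))) := by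
    refine CH_mono_cond hp0 ?_
    intro ω ω' a b h
    exact Prod.ext (hYdet ω ω' a b h) (Prod.ext_iff.mp h).2
  have d4 : CH F.p F.T (fun ω => (F.l ω, (T' ω, F.Z ω))) =
      CH F.p F.T (fun ω => (T' ω, (F.l ω, F.Z ω))) := by
    refine CH_congr hp0 (fun _ _ _ _ h => (Prod.ext_iff.mp h).1)
      (fun _ _ _ _ h => (Prod.ext_iff.mp h).1) ?_ ?_ <;>
    · intro ω ω' _ _ h
      simp only [Prod.mk.injEq] at h ⊢
      tauto
  have d5 : CH F.p Y F.W ≤ CH F.p Y (fun ω => (T' ω, F.Z ω)) := by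
    refine CH_mono_cond hp0 ?_
    intro ω ω' a b h
    have h1 : F.T ω = F.T ω' := (Prod.ext_iff.mp h).1
    have h2 : F.Z ω = F.Z ω' := (Prod.ext_iff.mp h).2
    exact Prod.ext (hdet ω ω' a b h1) h2
  have d6 : CH F.p Y (fun ω => (T' ω, F.Z ω)) ≤ CH F.p Y F.W + e := by
    rw [d1] at d2
    linarith
  -- the two positions are close
  have hclose : ∀ ω k, |(2 : ℝ) ^ j * (F.u ω k + (T' ω : ℝ) / 2 ^ x * F.d ω k) -
      2 ^ j * (F.u ω k + (F.T ω : ℝ) / 2 ^ J * F.d ω k)| ≤ 1 := by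
    intro ω k
    have e1 : (2 : ℝ) ^ j * (F.u ω k + (T' ω : ℝ) / 2 ^ x * F.d ω k) -
        2 ^ j * (F.u ω k + (F.T ω : ℝ) / 2 ^ J * F.d ω k) =
        2 ^ j * ((T' ω : ℝ) / 2 ^ x - (F.T ω : ℝ) / 2 ^ J) * F.d ω k := by ring
    have e2 : (2 : ℝ) ^ J = 2 ^ (J - x) * 2 ^ x := by rw [← pow_add, hJx]
    have hdm := Nat.div_add_mod (F.T ω) (2 ^ (J - x))
    have hml := Nat.mod_lt (F.T ω) (y := 2 ^ (J - x)) (by positivity)
    have e3 : (F.T ω : ℝ) = 2 ^ (J - x) * (T' ω : ℝ) + ((F.T ω % 2 ^ (J - x) : ℕ) : ℝ) := by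
      rw [hT']
      exact_mod_cast hdm.symm
    have e4 : ((F.T ω % 2 ^ (J - x) : ℕ) : ℝ) < 2 ^ (J - x) := by exact_mod_cast hml
    have e5 : (0 : ℝ) ≤ ((F.T ω % 2 ^ (J - x) : ℕ) : ℝ) := by positivity
    have p1 : (0 : ℝ) < 2 ^ (J - x) := by positivity
    have p2 : (0 : ℝ) < 2 ^ x := by positivity
    have e6 : (T' ω : ℝ) / 2 ^ x - (F.T ω : ℝ) / 2 ^ J =
        -(((F.T ω % 2 ^ (J - x) : ℕ) : ℝ) / 2 ^ (J - x) / 2 ^ x) := by
      rw [e2]
      field_simp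
      linarith
    rw [e1, e6, abs_mul, abs_mul, abs_neg, abs_of_nonneg (a := (2 : ℝ) ^ j) (by positivity),
      abs_of_nonneg (a := ((F.T ω % 2 ^ (J - x) : ℕ) : ℝ) / 2 ^ (J - x) / 2 ^ x) (by positivity)]
    have e7 : ((F.T ω % 2 ^ (J - x) : ℕ) : ℝ) / 2 ^ (J - x) ≤ 1 := by
      rw [div_le_one p1]
      exact e4.le
    have e8 : (2 : ℝ) ^ j * (((F.T ω % 2 ^ (J - x) : ℕ) : ℝ) / 2 ^ (J - x) / 2 ^ x) ≤ 1 := by
      have e9 : (2 : ℝ) ^ j ≤ 2 ^ x := pow_le_pow_right₀ (by norm_num) hj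
      have e10 : ((F.T ω % 2 ^ (J - x) : ℕ) : ℝ) / 2 ^ (J - x) / 2 ^ x ≤ 1 / 2 ^ x :=
        div_le_div_of_nonneg_right e7 p2.le
      calc (2 : ℝ) ^ j * (((F.T ω % 2 ^ (J - x) : ℕ) : ℝ) / 2 ^ (J - x) / 2 ^ x) ≤
          2 ^ x * (1 / 2 ^ x) := mul_le_mul e9 e10 (by positivity) p2.le
        _ = 1 := by field_simp
    calc _ ≤ 1 * 1 := mul_le_mul e8 (F.dir ω k) (abs_nonneg _) (by norm_num)
      _ = 1 := by norm_num
  have f1 : CH F.p Y F.W ≤ CH F.p (F.X j) F.W + cc m := by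
    refine CH_le_round hp Y (F.X j) F.W fun ω ω' _ _ _ h k => ?_
    exact floor_close (congrFun h k) (hclose ω k) (hclose ω' k)
  have f2 : CH F.p (F.X j) F.W ≤ CH F.p Y F.W + cc m := by
    refine CH_le_round hp (F.X j) Y F.W fun ω ω' _ _ _ h k => ?_
    refine floor_close (congrFun h k) ?_ ?_
    · rw [abs_sub_comm]; exact hclose ω k
    · rw [abs_sub_comm]; exact hclose ω' k
  have hV' : (F.trc x hx).V j = CH F.p (F.D x) F.Z - CH F.p Y (fun ω => (T' ω, F.Z ω)) -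
      m * (((x : ℝ) - j) * Real.log 2) := rfl
  have hV : F.V j = CH F.p (F.D J) F.Z - CH F.p (F.X j) F.W -
      m * (((J : ℝ) - j) * Real.log 2) := rfl
  have g1 : |(F.trc x hx).V j - (CH F.p (F.D x) F.Z - CH F.p (F.X j) F.W -
      m * (((x : ℝ) - j) * Real.log 2))| ≤ e + cc m := by
    rw [hV', abs_le]
    constructor <;> linarith
  refine ⟨g1, ?_⟩
  have g2 : CH F.p (F.D J) F.Z ≤ CH F.p (F.D x) F.Z + m * (((J : ℝ) - x) * Real.log 2) := by
    have h1 := CH_le_add hp0 (F.D J) (F.D x) F.Z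
    have h2 := CH_floor hp F.d F.Z x (J - x)
    rw [show x + (J - x) = J by omega, hx'] at h2
    have h3 : CH F.p (F.D J) (fun ω => (F.D x ω, F.Z ω)) ≤ m * (((J : ℝ) - x) * Real.log 2) := h2
    linarith
  rw [abs_le] at g1
  rw [hV]
  have g3 := g1.1
  have g4 : (m : ℝ) * (((J : ℝ) - j) * Real.log 2) =
      m * (((J : ℝ) - x) * Real.log 2) + m * (((x : ℝ) - j) * Real.log 2) := by ring
  linarith

end Pool.KA
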